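import Pool.Agent.W534.PoleDefs
import Pool.Agent.W458.RK.TDefs

/-!
# Poles of the zeta functions of the products with all varieties of small Frobenius rank:
definitions
-/

set_option autoImplicit false

open CategoryTheory AlgebraicGeometry

universe u v

namespace Pool.Agent.TH132.P

open Pool.Agent.H914 Pool.Agent.H914.VarClass Pool.Agent.H914.VarClass.Obj
  Pool.Agent.H914.WeilCohomology Pool.Agent.W534 Pool.Agent.W458.RK

/-- The order at `j` of the zeta function of `Z` over all sufficiently large finite fields is the
negative of the sum of `δ` and of the rank of the group of the cycles of codimension `j` on `Z`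
modulo numerical equivalence (`δ` is the defect in the formula of Tate). -/
def PoleDefect {k : Type u} [Field k] {𝒱 : VarClass k} {ops : CycleOps 𝒱}
    {W : WeilCohomology.{u, v} ops} {p : ℕ} (Φ : FrobSystem W p) (σ : W.K →+* ℂ) (Z : 𝒱.Obj)
    (j δ : ℕ) : Prop :=
  ∃ t, 0 < t ∧ ∀ s, 0 < s → t ∣ s →
    meromorphicOrderAt (zetaFn Φ σ Z s) (j : ℂ) = ((-(numRank ops Z j + δ : ℤ) : ℤ) : WithTop ℤ)

/-- The sum of the products `a i * b j` over `i ≤ m`, `j ≤ n` with `i + j = c`. -/
def conv (m n : ℕ) (a b : ℕ → ℕ) (c : ℕ) : ℕ :=
  ∑ x ∈ Finset.range (m + 1) ×ˢ Finset.range (n + 1), if x.1 + x.2 = c then a x.1 * b x.2 else 0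

/-- For **all** varieties `U` such that the eigenvalues of the Frobenius endomorphism on the
cohomology of `U` have rank at most `r` over `E`, with the defects `δ j` in codimension `j`, and all
`c ≤ dim (X × U)`:

* the rank of the cycles of codimension `c` on `X × U` modulo numerical equivalence is the sum over
  `i + j = c` of the products of the ranks for `X` in codimension `i` and for `U` in codimension
  `j`;
* the defect of `X × U` in codimension `c` is the sum over `i + j = c` of the products of the rank
  for `X` in codimension `i` and of the defect `δ j`;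
* so the formula of Tate holds for `X × U` in codimension `c` if and only if it holds for `U` in
  codimension `j` for all `i + j = c` such that there are cycles of codimension `i` on `X` which
  are not numerically trivial. -/
def DefectsTimes {k : Type u} [Field k] {𝒱 : VarClass k} {ops : CycleOps 𝒱}
    {W : WeilCohomology.{u, v} ops} {p : ℕ} (Φ : FrobSystem W p) (σ : W.K →+* ℂ) (E : Subfield ℂ)
    (r : ℕ) (X : 𝒱.Obj) : Prop :=
  ∀ U : 𝒱.Obj, EigenvaluesOfRank σ E r (W.map (Φ.Fr U)).toLinearMap →
    ∃ δ : ℕ → ℕ, (∀ j ≤ U.dim, PoleDefect Φ σ U j (δ j)) ∧ ∀ c ≤ (X.prod U).dim,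
      numRank ops (X.prod U) c = conv X.dim U.dim (numRank ops X) (numRank ops U) c ∧
      PoleDefect Φ σ (X.prod U) c (conv X.dim U.dim (numRank ops X) δ c) ∧
      (PoleFormula Φ σ (X.prod U) c ↔ ∀ i ≤ X.dim, ∀ j ≤ U.dim, i + j = c →
        numRank ops X i ≠ 0 → PoleFormula Φ σ U j)

end Pool.Agent.TH132.P
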