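import Pool.Agent.TH132.P.Fam

/-!
# The dimensions of the spaces of combinations
-/

set_option autoImplicit false

open CategoryTheory AlgebraicGeometry

universe u v

namespace Pool.Agent.TH132.P

open Pool.Agent.H914 Pool.Agent.H914.VarClass Pool.Agent.H914.VarClass.Obj
  Pool.Agent.H914.WeilCohomology Pool.Agent.H281R3.HT Pool.Agent.W552 Pool.Agent.W534
  Pool.Agent.H447 Pool.Agent.TH132.A

variable {k : Type u} [Field k] {𝒱 : VarClass k} {ops : CycleOps 𝒱}
  {W : WeilCohomology.{u, v} ops} {X U : 𝒱.Obj} {κ : Type} [Fintype κ] [DecidableEq κ]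
  {e b : κ → W.H X} {d : κ → ℕ}

/-- The coefficient of a class on `X × U`. -/
noncomputable def cf (W : WeilCohomology.{u, v} ops) {X U : 𝒱.Obj} (b : W.H X) :
    W.H (X.prod U) →ₗ[W.K] W.H U :=
  W.push (snd X U) ∘ₗ LinearMap.mulRight W.K (W.map (fst X U) b)

lemma cf_ext {m : ℕ} {b : W.H X} (hb : b ∈ W.gr X (2 * m)) (x : W.H X) (y : W.H U) :
    cf W b (ext W x y) = W.tr X (x * b) • y := by
  change W.push (snd X U) (W.map (fst X U) x * W.map (snd X U) y * W.map (fst X U) b) = _
  rw [mul_assoc, ← W.even_comm (W.map_mem (fst X U) hb), ← mul_assoc, ← map_mul, W.push_snd]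

lemma cf_mem {m i : ℕ} {b : W.H X} (hb : b ∈ W.gr X m) {z : W.H (X.prod U)}
    (hz : z ∈ W.gr (X.prod U) i) :
    (∀ j, j + 2 * X.dim = i + m → cf W b z ∈ W.gr U j) ∧ (i + m < 2 * X.dim → cf W b z = 0) := by
  have h1 := W.push_mem (snd X U) (W.mul_mem hz (W.map_mem (fst X U) hb))
  constructor
  · intro j hj
    rwa [show (((i + m : ℕ) : ℤ) + 2 * (U.dim - (X.prod U).dim)) = ((j : ℕ) : ℤ) by
      rw [dim_prod]; push_cast; omega, grZ_natCast] at h1
  · intro hi
    rw [grZ_of_neg (by rw [dim_prod]; push_cast; omega)] at h1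
    exact (Submodule.mem_bot _).1 h1

/-- The space of the coefficients. -/
noncomputable def comp (S : ℕ → Submodule W.K (W.H U)) (c i : ℕ) : Submodule W.K (W.H U) :=
  if i ≤ c then S (c - i) else ⊥

lemma ext_add_right (x : W.H X) (y y' : W.H U) : ext W x (y + y') = ext W x y + ext W x y' := by
  simp only [ext, map_add, mul_add]

lemma ext_smul_right (x : W.H X) (r : W.K) (y : W.H U) : ext W x (r • y) = r • ext W x y := by
  simp only [ext, map_smul, mul_smul_comm]

lemma ext_zero_right (x : W.H X) : ext W x (0 : W.H U) = 0 := by simp [ext]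

/-- The combinations with coefficients in the spaces. -/
noncomputable def psi (e : κ → W.H X) (d : κ → ℕ) (S : ℕ → Submodule W.K (W.H U)) (c : ℕ) :
    ((k : κ) → comp S c (d k)) →ₗ[W.K] W.H (X.prod U) where
  toFun v := ∑ k, ext W (e k) (v k : W.H U)
  map_add' v w := by
    rw [← Finset.sum_add_distrib]
    exact Finset.sum_congr rfl fun k _ => ext_add_right _ _ _
  map_smul' r v := by
    rw [Finset.smul_sum]
    exact Finset.sum_congr rfl fun k _ => ext_smul_right _ _ _

/-- The space of the combinations. -/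
noncomputable def combs (e : κ → W.H X) (d : κ → ℕ) (S : ℕ → Submodule W.K (W.H U)) (c : ℕ) :
    Submodule W.K (W.H (X.prod U)) := LinearMap.range (psi e d S c)

omit [DecidableEq κ] in
lemma mem_combs {S : ℕ → Submodule W.K (W.H U)} {c : ℕ} {z : W.H (X.prod U)} :
    z ∈ combs e d S c ↔ ∃ v : κ → W.H U, (∀ k, v k ∈ comp S c (d k)) ∧
      z = ∑ k, ext W (e k) (v k) := by
  constructor
  · rintro ⟨v, rfl⟩
    exact ⟨fun k => (v k : W.H U), fun k => (v k).2, rfl⟩
  · rintro ⟨v, hv, rfl⟩
    exact ⟨fun k => ⟨v k, hv k⟩, rfl⟩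

namespace HFam

variable (h : HFam W X e b d)

include h

lemma cf_sum (v : κ → W.H U) (l : κ) : cf W (b l) (∑ k, ext W (e k) (v k)) = v l := by
  rw [map_sum, Finset.sum_eq_single l]
  · rw [cf_ext (H914.span_gr (h.hb l)), h.dual, if_pos rfl, one_smul]
  · intro k _ hkl
    rw [cf_ext (H914.span_gr (h.hb l)), h.dual, if_neg hkl, zero_smul]
  · intro h0
    exact absurd (Finset.mem_univ _) h0

lemma mem_combs_iff {S : ℕ → Submodule W.K (W.H U)} {c : ℕ} {z : W.H (X.prod U)} :
    z ∈ combs e d S c ↔ (∀ k, cf W (b k) z ∈ comp S c (d k)) ∧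
      z = ∑ k, ext W (e k) (cf W (b k) z) := by
  rw [mem_combs]
  constructor
  · rintro ⟨v, hv, rfl⟩
    have h1 : ∀ l, cf W (b l) (∑ k, ext W (e k) (v k)) = v l := h.cf_sum v
    simp only [h1]
    exact ⟨hv, trivial⟩
  · rintro ⟨h1, h2⟩
    exact ⟨_, h1, h2⟩

lemma psi_injective (S : ℕ → Submodule W.K (W.H U)) (c : ℕ) :
    Function.Injective (psi e d S c) := by
  intro v w hvw
  funext l
  apply Subtype.ext
  rw [← h.cf_sum (fun k => (v k : W.H U)) l, ← h.cf_sum (fun k => (w k : W.H U)) l]
  exact congrArg _ hvw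

/-- **The dimension of the space of the combinations.** -/
theorem finrank_combs (S : ℕ → Submodule W.K (W.H U)) (c : ℕ) :
    Module.finrank W.K (combs e d S c) = ∑ i ∈ Finset.range (c + 1),
      Module.finrank W.K (spanCycles W X (i : ℕ)) * Module.finrank W.K (S (c - i)) := by
  rw [combs, LinearMap.finrank_range_of_inj (h.psi_injective S c), Module.finrank_pi_fintype]
  have h1 : ∀ k, Module.finrank W.K (comp S c (d k)) = ∑ i ∈ Finset.range (c + 1),
      if d k = i then Module.finrank W.K (S (c - i)) else 0 := by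
    intro k
    rw [Finset.sum_ite_eq]
    by_cases hk : d k ≤ c
    · rw [if_pos (Finset.mem_range.2 (by omega)), comp, if_pos hk]
    · rw [if_neg (fun hh => hk (by have := Finset.mem_range.1 hh; omega)), comp, if_neg hk,
        finrank_bot]
  rw [Finset.sum_congr rfl fun k _ => h1 k, Finset.sum_comm]
  refine Finset.sum_congr rfl fun i _ => ?_
  rw [← Finset.sum_filter, Finset.sum_const, h.cnt, smul_eq_mul]

/-- The representation of a class. -/
lemma rep {z : W.H (X.prod U)}
    (hz : z ∈ Submodule.span W.K {w | ∃ x y, AS W X x ∧ w = ext W x y}) :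
    z = ∑ k, ext W (e k) (cf W (b k) z) := by
  have h1 : ∃ v : κ → W.H U, z = ∑ k, ext W (e k) (v k) := by
    induction hz using Submodule.span_induction with
    | mem w hw =>
      obtain ⟨x, y, hx, rfl⟩ := hw
      have h2 : x ∈ Submodule.span W.K (Set.range e) := by
        refine AS.ind (p := fun x => x ∈ Submodule.span W.K (Set.range e)) ?_
          (fun x y hx hy => Submodule.add_mem _ hx hy) hx
        intro j x hx
        exact h.span j x (alg_mem_span hx)
      obtain ⟨c, hc⟩ := (Submodule.mem_span_range_iff_exists_fun W.K).1 h2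
      refine ⟨fun i => c i • y, ?_⟩
      rw [← hc]
      simp only [ext, map_sum, map_smul, Finset.sum_mul, smul_mul_assoc, mul_smul_comm]
    | zero => exact ⟨0, by simp [ext]⟩
    | add x y _ _ hx hy =>
      obtain ⟨v, rfl⟩ := hx
      obtain ⟨w, rfl⟩ := hy
      refine ⟨v + w, ?_⟩
      rw [← Finset.sum_add_distrib]
      exact Finset.sum_congr rfl fun i _ => (ext_add_right _ _ _).symm
    | smul c x _ hx =>
      obtain ⟨v, rfl⟩ := hx
      refine ⟨c • v, ?_⟩
      rw [Finset.smul_sum]
      exact Finset.sum_congr rfl fun i _ => (ext_smul_right _ _ _).symm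
  obtain ⟨v, rfl⟩ := h1
  exact Finset.sum_congr rfl fun k _ => by rw [h.cf_sum]

end HFam

end Pool.Agent.TH132.P
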