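import Pool.Agent.W534.PoleD
import Pool.Agent.TH132.A.Split

/-!
# Bases of the spans of the algebraic classes with dual bases
-/

set_option autoImplicit false

open CategoryTheory AlgebraicGeometry

universe u v

namespace Pool.Agent.TH132.P

open Pool.Agent.H914 Pool.Agent.H914.VarClass Pool.Agent.H914.VarClass.Obj
  Pool.Agent.H914.WeilCohomology Pool.Agent.H281R3.HT Pool.Agent.W552 Pool.Agent.W534
  Pool.Agent.H447 Pool.Agent.TH132.A

variable {k : Type u} [Field k] {𝒱 : VarClass k} {ops : CycleOps 𝒱}
  {W : WeilCohomology.{u, v} ops} {X U : 𝒱.Obj}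

/-- A basis of the spans of the algebraic classes, with a dual basis. -/
structure HFam (W : WeilCohomology.{u, v} ops) (X : 𝒱.Obj) {κ : Type} [Fintype κ]
    [DecidableEq κ] (e b : κ → W.H X) (d : κ → ℕ) : Prop where
  hd : ∀ k, d k ≤ X.dim
  he : ∀ k, e k ∈ spanCycles W X (d k : ℕ)
  hb : ∀ k, b k ∈ spanCycles W X (X.dim - d k : ℕ)
  dual : ∀ k l, W.tr X (e k * b l) = if k = l then 1 else 0
  cnt : ∀ i : ℕ, (Finset.univ.filter fun k => d k = i).card =
    Module.finrank W.K (spanCycles W X (i : ℕ))
  span : ∀ i : ℕ, ∀ x ∈ spanCycles W X (i : ℕ), x ∈ Submodule.span W.K (Set.range e)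

lemma spanCycles_bot {i : ℕ} (hi : X.dim < i) : spanCycles W X (i : ℕ) = ⊥ := by
  rw [eq_bot_iff]
  intro x hx
  have h1 := H914.span_gr hx
  rwa [W.gr_eq_bot X (2 * i) (by omega)] at h1

/-- Existence of dual families in complementary codimensions. -/
lemma exists_dual_deg (hD : HomEqNum W X) (i : ℕ) (hi : i ≤ X.dim) :
    ∃ b : Fin (Module.finrank W.K (spanCycles W X (i : ℕ))) →
      spanCycles W X (X.dim - i : ℕ), ∀ k l, W.tr X
        ((Module.finBasis W.K (spanCycles W X (i : ℕ)) k : W.H X) * (b l : W.H X)) =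
          if k = l then 1 else 0 := by
  classical
  have h1 : ∀ j : ℕ, j ≤ X.dim → HomEqNumIn W X j := fun j hj z hz h => hD j hj z hz h
  have i1 := pair_injective (W := W) (Z := X) (j := i) (l := X.dim - i) (by omega) (h1 i hi)
  have i2 := pair_injective (W := W) (Z := X) (j := X.dim - i) (l := i) (by omega)
    (h1 _ (by omega))
  have e1 := LinearMap.finrank_le_finrank_of_injective i1
  have e2 := LinearMap.finrank_le_finrank_of_injective i2
  rw [Subspace.dual_finrank_eq] at e1 e2
  have hs : Function.Surjective (pair W X (X.dim - i : ℕ) i) :=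
    (LinearMap.injective_iff_surjective_of_finrank_eq_finrank (by
      rw [Subspace.dual_finrank_eq]; omega)).1 i2
  choose b hb using fun l => hs ((Module.finBasis W.K (spanCycles W X (i : ℕ))).coord l)
  refine ⟨b, fun k l => ?_⟩
  have h2 := congrArg (fun g => g (Module.finBasis W.K (spanCycles W X (i : ℕ)) k)) (hb l)
  simp only [pair_apply, Module.Basis.coord_apply, Module.Basis.repr_self] at h2
  rw [W.even_comm (H914.span_gr (Module.finBasis W.K (spanCycles W X (i : ℕ)) k).2), h2,
    Finsupp.single_apply]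

/-- Existence of the basis. -/
theorem exists_hFam (hD : HomEqNum W X) : ∃ (κ : Type) (_ : Fintype κ) (_ : DecidableEq κ)
    (e b : κ → W.H X) (d : κ → ℕ), HFam W X e b d := by
  classical
  choose b hb using fun i : Fin (X.dim + 1) =>
    exists_dual_deg (W := W) hD i.1 (Nat.lt_succ_iff.1 i.2)
  refine ⟨Σ i : Fin (X.dim + 1), Fin (Module.finrank W.K (spanCycles W X (i.1 : ℕ))),
    inferInstance, inferInstance,
    fun k => (Module.finBasis W.K (spanCycles W X (k.1.1 : ℕ)) k.2 : W.H X),
    fun k => (b k.1 k.2 : W.H X), fun k => k.1.1, ?_⟩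
  refine ⟨fun k => Nat.lt_succ_iff.1 k.1.2, fun k => (Module.finBasis W.K _ k.2).2,
    fun k => (b k.1 k.2).2, ?_, ?_, ?_⟩
  · rintro ⟨i, k⟩ ⟨j, l⟩
    by_cases hij : i = j
    · subst hij
      rw [hb i k l]
      by_cases hkl : k = l
      · subst hkl; simp
      · rw [if_neg hkl, if_neg]
        intro h
        exact hkl (by simpa using h)
    · rw [if_neg fun h => hij (congrArg Sigma.fst h)]
      refine W.tr_eq_zero (W.mul_mem (H914.span_gr (Module.finBasis W.K _ k).2)
        (H914.span_gr (b j l).2)) ?_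
      have hi := i.2
      have hj := j.2
      have : i.1 ≠ j.1 := fun h => hij (Fin.ext h)
      omega
  · intro i
    by_cases hi : i ≤ X.dim
    · rw [← Fintype.card_subtype, ← Fintype.card_fin (Module.finrank W.K
        (spanCycles W X (i : ℕ)))]
      refine Fintype.card_congr
        { toFun := fun k => Fin.cast (by rw [k.2]) k.1.2
          invFun := fun l => ⟨⟨⟨i, by omega⟩, l⟩, rfl⟩
          left_inv := ?_
          right_inv := fun l => rfl }
      rintro ⟨⟨⟨j, hj⟩, k⟩, rfl⟩
      rfl
    · rw [spanCycles_bot (by omega), finrank_bot, Finset.card_eq_zero,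
        Finset.filter_eq_empty_iff]
      rintro ⟨j, k⟩ - h
      have := j.2
      simp only at h
      omega
  · intro i x hx
    by_cases hi : i ≤ X.dim
    · have h1 := (Module.finBasis W.K (spanCycles W X (i : ℕ))).sum_repr ⟨x, hx⟩
      have h2 := congrArg Subtype.val h1
      rw [Submodule.coe_sum] at h2
      have h3 : x = _ := h2.symm
      rw [h3]
      refine Submodule.sum_mem _ fun l _ => ?_
      rw [Submodule.coe_smul]
      exact Submodule.smul_mem _ _ (Submodule.subset_span ⟨⟨⟨i, by omega⟩, l⟩, rfl⟩)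
    · rw [spanCycles_bot (by omega)] at hx
      rw [(Submodule.mem_bot _).1 hx]
      exact Submodule.zero_mem _

end Pool.Agent.TH132.P
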