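import Pool.Agent.TH132.P.TateT
import Pool.Agent.TH132.P.Defs
import Pool.Agent.W458.RK.Final

/-!
# Poles of the zeta functions of the products with all varieties of small Frobenius rank
-/

set_option autoImplicit false

open CategoryTheory AlgebraicGeometry

universe u v

namespace Pool.Agent.TH132.P

open Pool.Agent.H914 Pool.Agent.H914.VarClass Pool.Agent.H914.VarClass.Obj
  Pool.Agent.H914.WeilCohomology Pool.Agent.H281R3.HT Pool.Agent.W552 Pool.Agent.W534
  Pool.Agent.H447 Pool.Agent.TH132.A Pool.Agent.W458.RK Pool.Agent.W458.MF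

variable {k : Type u} [Field k] {𝒱 : VarClass k} {ops : CycleOps 𝒱}

lemma sum_eq_conv {m n c : ℕ} {a b : ℕ → ℕ} (ha : ∀ i, m < i → a i = 0)
    (hb : ∀ j, n < j → b j = 0) :
    ∑ i ∈ Finset.range (c + 1), a i * b (c - i) = conv m n a b c := by
  classical
  rw [conv, ← Finset.sum_filter, ← Finset.Nat.sum_antidiagonal_eq_sum_range_succ
    (fun i j => a i * b j)]
  symm
  refine Finset.sum_subset (f := fun x : ℕ × ℕ => a x.1 * b x.2) ?_ ?_
  · intro x hx
    rw [Finset.mem_filter] at hx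
    exact Finset.HasAntidiagonal.mem_antidiagonal.2 hx.2
  · intro x hx hx'
    rw [Finset.HasAntidiagonal.mem_antidiagonal] at hx
    by_cases h1 : m < x.1
    · rw [ha _ h1, zero_mul]
    by_cases h2 : n < x.2
    · rw [hb _ h2, mul_zero]
    · exfalso
      apply hx'
      rw [Finset.mem_filter, Finset.mem_product, Finset.mem_range, Finset.mem_range]
      exact ⟨⟨by omega, by omega⟩, hx⟩

lemma conv_congr {m n c : ℕ} {a a' b b' : ℕ → ℕ} (ha : ∀ i ≤ m, a i = a' i)
    (hb : ∀ j ≤ n, b j = b' j) : conv m n a b c = conv m n a' b' c := by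
  refine Finset.sum_congr rfl fun x hx => ?_
  rw [Finset.mem_product, Finset.mem_range, Finset.mem_range] at hx
  rw [ha _ (by omega), hb _ (by omega)]

lemma conv_add (m n c : ℕ) (a b b' : ℕ → ℕ) :
    conv m n a (fun j => b j + b' j) c = conv m n a b c + conv m n a b' c := by
  rw [conv, conv, conv, ← Finset.sum_add_distrib]
  refine Finset.sum_congr rfl fun x _ => ?_
  split_ifs
  · ring
  · rfl

lemma conv_eq_zero {m n c : ℕ} {a b : ℕ → ℕ} : conv m n a b c = 0 ↔
    ∀ i ≤ m, ∀ j ≤ n, i + j = c → a i ≠ 0 → b j = 0 := by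
  rw [conv, Finset.sum_eq_zero_iff]
  constructor
  · intro h i hi j hj hij hai
    have h1 := h (i, j) (Finset.mem_product.2 ⟨Finset.mem_range.2 (by omega),
      Finset.mem_range.2 (by omega)⟩)
    rw [if_pos hij] at h1
    exact (mul_eq_zero.1 h1).resolve_left hai
  · rintro h ⟨i, j⟩ hx
    rw [Finset.mem_product, Finset.mem_range, Finset.mem_range] at hx
    split_ifs with hij
    · by_cases hai : a i = 0
      · rw [hai, zero_mul]
      · rw [h i (by have := hx.1; simp only at this; omega) j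
          (by have := hx.2; simp only at this; omega) hij hai, mul_zero]
    · rfl

section

variable {W : WeilCohomology.{u, v} ops} {X U Z : 𝒱.Obj} {p : ℕ} {Φ : FrobSystem W p}
  {σ : W.K →+* ℂ} {E : Subfield ℂ} {r : ℕ}

lemma genT_bot {j : ℕ} (hj : Z.dim < j) : genT Φ Z j = ⊥ := by
  rw [eq_bot_iff]
  intro x hx
  obtain ⟨s, -, h⟩ := (mem_genT Φ).1 hx
  have h1 := ((mem_genTate Φ).1 h).2
  rwa [W.gr_eq_bot Z (2 * j) (by omega)] at h1

lemma nul_bot {j : ℕ} (hj : Z.dim < j) : nul W Z j = ⊥ := by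
  rw [eq_bot_iff]
  intro x hx
  have h1 := (mem_nul.1 hx).1
  rwa [spanCycles_bot hj] at h1

/-- The ranks for a variety on which homological and numerical equivalence coincide. -/
lemma numRank_of_D (hD : HomEqNum W X) {i : ℕ} (hi : i ≤ X.dim) :
    numRank ops X i = Module.finrank W.K (spanCycles W X (i : ℕ)) := by
  rw [numRank_eq (W := W) hi, kRank]
  exact LinearMap.finrank_range_of_inj (pair_injective (by omega) fun z hz h => hD i hi z hz h)

lemma HFam.finrank_combs' {κ : Type} [Fintype κ] [DecidableEq κ] {e b : κ → W.H X}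
    {d : κ → ℕ} (h : HFam W X e b d) (hD : HomEqNum W X) {S : ℕ → Submodule W.K (W.H U)}
    (hS : ∀ j, U.dim < j → S j = ⊥) (c : ℕ) : Module.finrank W.K (combs e d S c) =
      conv X.dim U.dim (numRank ops X) (fun j => Module.finrank W.K (S j)) c := by
  rw [h.finrank_combs]
  refine (sum_eq_conv (m := X.dim) (n := U.dim)
    (a := fun i => Module.finrank W.K (spanCycles W X (i : ℕ)))
    (b := fun j => Module.finrank W.K (S j)) ?_ ?_).trans ?_
  · intro i hi
    rw [spanCycles_bot hi, finrank_bot]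
  · intro j hj
    rw [hS j hj, finrank_bot]
  · exact conv_congr (fun i hi => (numRank_of_D hD hi).symm) fun _ _ => rfl

/-- The defect. -/
noncomputable def defect (Φ : FrobSystem W p) (Z : 𝒱.Obj) (j : ℕ) : ℕ :=
  Module.finrank W.K (genT Φ Z j) - numRank ops Z j

lemma numRank_add_defect (Z : 𝒱.Obj) {j : ℕ} (hj : j ≤ Z.dim) :
    numRank ops Z j + defect Φ Z j = Module.finrank W.K (genT Φ Z j) := by
  have h1 : numRank ops Z j ≤ Module.finrank W.K (genT Φ Z j) := by
    rw [numRank_eq (W := W) hj]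
    exact (kRank_le j (Z.dim - j)).trans (Submodule.finrank_mono (span_le_genT Φ Z j))
  rw [defect]
  omega

lemma poleDefect_of (hp : 1 < p) (hRH : RiemannHyp Φ σ Z) {j δ : ℕ} (hj : j ≤ Z.dim)
    (h : Module.finrank W.K (genT Φ Z j) = numRank ops Z j + δ) : PoleDefect Φ σ Z j δ := by
  obtain ⟨t, ht, h1⟩ := genT_spec Φ Z j
  refine ⟨t, ht, fun s hs hts => ?_⟩
  rw [order_zetaFn Φ hp σ hRH hs hj, h1 s hs hts, h]
  push_cast
  rfl

lemma poleFormula_iff_of {j δ : ℕ} (h : PoleDefect Φ σ Z j δ) :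
    PoleFormula Φ σ Z j ↔ δ = 0 := by
  obtain ⟨t, ht, h1⟩ := h
  constructor
  · rintro ⟨t', ht', h2⟩
    have h3 := h1 (t * t') (Nat.mul_pos ht ht') (Nat.dvd_mul_right _ _)
    rw [h2 (t * t') (Nat.mul_pos ht ht') (Nat.dvd_mul_left _ _)] at h3
    have h4 := WithTop.coe_injective h3
    omega
  · rintro rfl
    refine ⟨t, ht, fun s hs hts => ?_⟩
    rw [h1 s hs hts]
    simp

/-- **The formula for the defects of the product.** -/
theorem defectsTimes_of_tateTimes [IsAlgClosed W.K] (hp : 1 < p)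
    (hRH : ∀ Z : 𝒱.Obj, RiemannHyp Φ σ Z) (hT : TateTimes Φ σ E r X) :
    DefectsTimes Φ σ E r X := by
  intro U hU
  have hD := homEqNum_of_tateTimes hp hT
  obtain ⟨κ, _, _, e, b, d, h⟩ := exists_hFam hD
  have hS : ∀ z, AS W (X.prod U) z → z ∈ tens W X U := fun z hz => tens_of_tateTimes hp hT hU hz
  -- the ranks
  have hrank : ∀ c ≤ (X.prod U).dim, numRank ops (X.prod U) c =
      conv X.dim U.dim (numRank ops X) (numRank ops U) c := by
    intro c hc
    have h1 := finrank_nul (W := W) (Z := X.prod U) c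
    rw [← numRank_eq (W := W) hc, h.nul_eq hS hc, h.span_eq hS,
      h.finrank_combs' hD (fun j hj => nul_bot hj),
      h.finrank_combs' hD (fun j hj => spanCycles_bot hj)] at h1
    have h2 : conv X.dim U.dim (numRank ops X)
        (fun j => Module.finrank W.K (spanCycles W U (j : ℕ))) c =
        conv X.dim U.dim (numRank ops X)
          (fun j => numRank ops U j + Module.finrank W.K (nul W U j)) c :=
      conv_congr (fun _ _ => rfl) fun j hj => by
        rw [numRank_eq (W := W) hj]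
        exact (finrank_nul (W := W) (Z := U) j).symm
    rw [h2, conv_add] at h1
    exact Nat.add_right_cancel h1
  have hdef : ∀ c ≤ (X.prod U).dim, PoleDefect Φ σ (X.prod U) c
      (conv X.dim U.dim (numRank ops X) (defect Φ U) c) := by
    intro c hc
    refine poleDefect_of hp (hRH _) hc ?_
    rw [h.genT_eq hT hU, h.finrank_combs' hD (fun j hj => genT_bot hj), hrank c hc, ← conv_add]
    exact conv_congr (fun _ _ => rfl) fun j hj => (numRank_add_defect U hj).symm
  have hU' : ∀ j ≤ U.dim, PoleDefect Φ σ U j (defect Φ U j) := fun j hj =>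
    poleDefect_of hp (hRH _) hj (numRank_add_defect U hj).symm
  refine ⟨defect Φ U, hU', fun c hc => ⟨hrank c hc, hdef c hc, ?_⟩⟩
  rw [poleFormula_iff_of (hdef c hc), conv_eq_zero]
  refine forall_congr' fun i => forall_congr' fun hi => forall_congr' fun j =>
    forall_congr' fun hj => forall_congr' fun _ => forall_congr' fun _ => ?_
  exact (poleFormula_iff_of (hU' j hj)).symm

end

/-- **Poles of the zeta functions of the products of almost all members with all varieties of small
rank.** -/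
theorem final_defects (W : WeilCohomology.{u, v} ops) [IsAlgClosed W.K] (σ : W.K →+* ℂ)
    (p : ℕ) (hp : p.Prime) (Φ : FrobSystem W p) (hRH : ∀ Z : 𝒱.Obj, RiemannHyp Φ σ Z)
    (Y : 𝒱.Obj) (hY : ∀ x : W.H Y, x ∈ algSpan W Y)
    {I : Type} [Fintype I] (F : I → Family W Y) (e : I → ℕ)
    (hF : ∀ i, Pol.HasLargeMonodromy (F i) Φ (e i)) (E : Subfield ℂ) [NumberField E] (r : ℕ)
    (hr : ∀ i m (s : (F i).S m), r < ((F i).member m s).pol.natDegree) (ε : ℝ) (hε : 0 < ε) :
    ∃ m₀ : ℕ, ∀ m ≥ m₀, ((badTuples F m (fun i P => e i ≠ 0 → ForcedTate p P m)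
      (DefectsTimes Φ σ E r)).ncard : ℝ) ≤ ε * ∏ i, (Nat.card ((F i).S m) : ℝ) := by
  obtain ⟨m₀, h⟩ := final_tate_times W σ p hp Φ Y hY F e hF E r hr ε hε
  refine ⟨m₀, fun m hm => le_trans ?_ (h m hm)⟩
  refine Nat.cast_le.2 (Set.ncard_le_ncard ?_ (Set.toFinite _))
  rintro s ⟨hs1, hs2⟩
  exact ⟨hs1, fun h3 => hs2 fun Z hZ => defectsTimes_of_tateTimes hp.one_lt hRH (h3 Z hZ)⟩

end Pool.Agent.TH132.P
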