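import Pool.Agent.TH132.P.Dim

/-!
# Algebraic classes and numerically trivial classes on a product
-/

set_option autoImplicit false

open CategoryTheory AlgebraicGeometry

universe u v

namespace Pool.Agent.TH132.P

open Pool.Agent.H914 Pool.Agent.H914.VarClass Pool.Agent.H914.VarClass.Obj
  Pool.Agent.H914.WeilCohomology Pool.Agent.H281R3.HT Pool.Agent.W552 Pool.Agent.W534
  Pool.Agent.H447 Pool.Agent.TH132.A

variable {k : Type u} [Field k] {𝒱 : VarClass k} {ops : CycleOps 𝒱}
  {W : WeilCohomology.{u, v} ops} {X U Z : 𝒱.Obj} {κ : Type} [Fintype κ] [DecidableEq κ]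
  {e b : κ → W.H X} {d : κ → ℕ}

lemma spanCycles_ind {j : ℕ} {p : W.H X → Prop} (h1 : ∀ x ∈ algClasses W X j, p x)
    (h0 : p 0) (h2 : ∀ x y, p x → p y → p (x + y)) (h3 : ∀ (r : W.K) x, p x → p (r • x))
    {x : W.H X} (hx : x ∈ spanCycles W X (j : ℕ)) : p x := by
  rw [spanCycles_eq] at hx
  induction hx using Submodule.span_induction with
  | mem x hx => exact h1 x hx
  | zero => exact h0
  | add x y _ _ hx hy => exact h2 x y hx hy
  | smul r x _ hx => exact h3 r x hx

lemma ext_span {i j : ℕ} {x : W.H X} {y : W.H U} (hx : x ∈ spanCycles W X (i : ℕ))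
    (hy : y ∈ spanCycles W U (j : ℕ)) : ext W x y ∈ spanCycles W (X.prod U) ((i + j : ℕ) : ℤ) := by
  refine spanCycles_ind (p := fun x => ext W x y ∈ spanCycles W (X.prod U) ((i + j : ℕ) : ℤ))
    ?_ ?_ ?_ ?_ hx
  · intro x hx
    refine spanCycles_ind (p := fun y => ext W x y ∈ spanCycles W (X.prod U) ((i + j : ℕ) : ℤ))
      ?_ ?_ ?_ ?_ hy
    · intro y hy
      exact alg_mem_span (alg_mul (alg_map _ hx) (alg_map _ hy))
    · rw [ext_zero_right]; exact Submodule.zero_mem _
    · intro a b ha hb
      rw [ext_add_right]; exact Submodule.add_mem _ ha hb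
    · intro r a ha
      rw [ext_smul_right]; exact Submodule.smul_mem _ _ ha
  · simp [ext]
  · intro a b ha hb
    rw [show ext W (a + b) y = ext W a y + ext W b y by simp only [ext, map_add, add_mul]]
    exact Submodule.add_mem _ ha hb
  · intro r a ha
    rw [show ext W (r • a) y = r • ext W a y by simp only [ext, map_smul, smul_mul_assoc]]
    exact Submodule.smul_mem _ _ ha

lemma cf_add (b b' : W.H X) (z : W.H (X.prod U)) : cf W (b + b') z = cf W b z + cf W b' z := by
  change W.push (snd X U) (z * W.map (fst X U) (b + b')) = W.push (snd X U) (z * _) +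
    W.push (snd X U) (z * _)
  rw [map_add, mul_add, map_add]

lemma cf_smul (r : W.K) (b : W.H X) (z : W.H (X.prod U)) : cf W (r • b) z = r • cf W b z := by
  change W.push (snd X U) (z * W.map (fst X U) (r • b)) = r • W.push (snd X U) (z * _)
  rw [map_smul, mul_smul_comm, map_smul]

lemma cf_zero (z : W.H (X.prod U)) : cf W (0 : W.H X) z = 0 := by
  change W.push (snd X U) (z * W.map (fst X U) 0) = 0
  rw [map_zero, mul_zero, map_zero]

/-- The coefficients of algebraic classes. -/
lemma cf_span {i m j : ℕ} {b : W.H X} {z : W.H (X.prod U)} (hb : b ∈ spanCycles W X (m : ℕ))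
    (hz : z ∈ spanCycles W (X.prod U) (i : ℕ)) (hij : i + m = j + X.dim) :
    cf W b z ∈ spanCycles W U (j : ℕ) := by
  refine spanCycles_ind (p := fun b => cf W b z ∈ spanCycles W U (j : ℕ)) ?_ ?_ ?_ ?_ hb
  · intro b hb
    refine spanCycles_ind (p := fun z => cf W b z ∈ spanCycles W U (j : ℕ)) ?_ ?_ ?_ ?_ hz
    · intro z hz
      exact alg_mem_span (alg_push (snd X U) (alg_mul hz (alg_map _ hb)) (by rw [dim_prod]; omega))
    · rw [map_zero]; exact Submodule.zero_mem _
    · intro x y hx hy
      rw [map_add]; exact Submodule.add_mem _ hx hy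
    · intro r x hx
      rw [map_smul]; exact Submodule.smul_mem _ _ hx
  · rw [cf_zero]; exact Submodule.zero_mem _
  · intro x y hx hy
    rw [cf_add]; exact Submodule.add_mem _ hx hy
  · intro r x hx
    rw [cf_smul]; exact Submodule.smul_mem _ _ hx

/-- The numerically trivial combinations of algebraic classes. -/
noncomputable def nul (W : WeilCohomology.{u, v} ops) (Z : 𝒱.Obj) (c : ℕ) :
    Submodule W.K (W.H Z) :=
  (LinearMap.ker (pair W Z (c : ℕ) (Z.dim - c : ℕ))).map (spanCycles W Z (c : ℕ)).subtype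

lemma mem_nul {c : ℕ} {z : W.H Z} : z ∈ nul W Z c ↔ z ∈ spanCycles W Z (c : ℕ) ∧
    ∀ y ∈ spanCycles W Z (Z.dim - c : ℕ), W.tr Z (z * y) = 0 := by
  constructor
  · rintro ⟨⟨z, hz⟩, h1, rfl⟩
    refine ⟨hz, fun y hy => ?_⟩
    exact congrArg (fun g => g ⟨y, hy⟩) (LinearMap.mem_ker.1 h1)
  · rintro ⟨hz, h⟩
    refine ⟨⟨z, hz⟩, LinearMap.mem_ker.2 ?_, rfl⟩
    ext ⟨y, hy⟩
    exact h y hy

lemma finrank_nul (c : ℕ) : kRank W Z (c : ℕ) (Z.dim - c : ℕ) + Module.finrank W.K (nul W Z c) =
    Module.finrank W.K (spanCycles W Z (c : ℕ)) := by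
  rw [nul, Submodule.finrank_map_subtype_eq, kRank]
  exact LinearMap.finrank_range_add_finrank_ker _

lemma ext_mul_ext {m : ℕ} {x x' : W.H X} (hx' : x' ∈ W.gr X (2 * m)) (y y' : W.H U) :
    W.tr _ (ext W x y * ext W x' y') = W.tr X (x * x') * W.tr U (y * y') := by
  rw [← W.tr_prod, map_mul (W.map (fst X U)), map_mul (W.map (snd X U))]
  congr 1
  rw [ext, ext, mul_assoc, ← mul_assoc (W.map (snd X U) y), ← W.even_comm (W.map_mem _ hx'),
    mul_assoc, mul_assoc]

namespace HFam

variable (h : HFam W X e b d)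

include h

/-- The algebraic classes on the product. -/
theorem span_eq (hS : ∀ z, AS W (X.prod U) z → z ∈ tens W X U) (c : ℕ) :
    spanCycles W (X.prod U) (c : ℕ) = combs e d (fun j => spanCycles W U (j : ℕ)) c := by
  ext z
  constructor
  · intro hz
    rw [h.mem_combs_iff]
    constructor
    · intro k
      by_cases hk : d k ≤ c
      · rw [comp, if_pos hk]
        refine cf_span (h.hb k) hz ?_
        have := h.hd k
        omega
      · rw [comp, if_neg hk]
        have h1 := (cf_mem (H914.span_gr (h.hb k)) (H914.span_gr hz)).2 (by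
          have := h.hd k
          omega)
        rw [h1]
        exact Submodule.zero_mem _
    · refine h.rep ?_
      refine spanCycles_ind (p := fun z => z ∈ Submodule.span W.K
        {w | ∃ x y, AS W X x ∧ w = ext W x y}) ?_ (Submodule.zero_mem _)
        (fun x y hx hy => Submodule.add_mem _ hx hy) (fun r x hx => Submodule.smul_mem _ _ hx) hz
      intro z hz
      exact tens_le_span (hS z (AS.of hz))
  · intro hz
    obtain ⟨v, hv, rfl⟩ := mem_combs.1 hz
    refine Submodule.sum_mem _ fun k _ => ?_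
    have h1 := hv k
    by_cases hk : d k ≤ c
    · rw [comp, if_pos hk] at h1
      have := ext_span (h.he k) h1
      rwa [show d k + (c - d k) = c by omega] at this
    · rw [comp, if_neg hk] at h1
      rw [(Submodule.mem_bot _).1 h1, ext_zero_right]
      exact Submodule.zero_mem _

/-- The numerically trivial algebraic classes on the product. -/
theorem nul_eq (hS : ∀ z, AS W (X.prod U) z → z ∈ tens W X U) {c : ℕ}
    (hc : c ≤ (X.prod U).dim) : nul W (X.prod U) c = combs e d (nul W U) c := by
  rw [dim_prod] at hc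
  ext z
  constructor
  · intro hz
    obtain ⟨hz1, hz2⟩ := mem_nul.1 hz
    have hz3 := hz1
    rw [h.span_eq hS, h.mem_combs_iff] at hz3
    rw [h.mem_combs_iff]
    refine ⟨fun k => ?_, hz3.2⟩
    have h1 := hz3.1 k
    have hdk := h.hd k
    by_cases hk : d k ≤ c
    · rw [comp, if_pos hk] at h1 ⊢
      by_cases hm : c - d k ≤ U.dim
      · refine mem_nul.2 ⟨h1, fun y hy => ?_⟩
        have h2 : W.tr U (cf W (b k) z * y) = W.tr _ (z * ext W (b k) y) := by
          change W.tr U (W.push (snd X U) (z * W.map (fst X U) (b k)) * y) = _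
          rw [W.tr_push, mul_assoc]
          rfl
        rw [h2]
        refine hz2 _ ?_
        have h3 := ext_span (h.hb k) hy
        rwa [show X.dim - d k + (U.dim - (c - d k)) = (X.prod U).dim - c by
          rw [dim_prod]; omega] at h3
      · rw [spanCycles_bot (by omega)] at h1
        rw [(Submodule.mem_bot _).1 h1]
        exact Submodule.zero_mem _
    · rw [comp, if_neg hk] at h1 ⊢
      exact h1
  · intro hz
    obtain ⟨v, hv, rfl⟩ := mem_combs.1 hz
    have hz1 : (∑ k, ext W (e k) (v k)) ∈ spanCycles W (X.prod U) (c : ℕ) := by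
      rw [h.span_eq hS]
      refine mem_combs.2 ⟨v, fun k => ?_, rfl⟩
      have h1 := hv k
      by_cases hk : d k ≤ c
      · rw [comp, if_pos hk] at h1 ⊢
        exact (mem_nul.1 h1).1
      · rw [comp, if_neg hk] at h1 ⊢
        exact h1
    refine mem_nul.2 ⟨hz1, fun y hy => ?_⟩
    rw [h.span_eq hS] at hy
    obtain ⟨w, hw, rfl⟩ := mem_combs.1 hy
    rw [Finset.sum_mul, map_sum]
    refine Finset.sum_eq_zero fun k _ => ?_
    rw [Finset.mul_sum, map_sum]
    refine Finset.sum_eq_zero fun l _ => ?_
    rw [ext_mul_ext (H914.span_gr (h.he l))]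
    have hdk := h.hd k
    have hdl := h.hd l
    by_cases hkl : d k + d l = X.dim
    · have h1 := hv k
      have h2 := hw l
      by_cases hk : d k ≤ c
      · rw [comp, if_pos hk] at h1
        obtain ⟨h3, h4⟩ := mem_nul.1 h1
        by_cases hm : c - d k ≤ U.dim
        · rw [dim_prod, comp, if_pos (by omega)] at h2
          rw [show X.dim + U.dim - c - d l = U.dim - (c - d k) by omega] at h2
          rw [h4 _ h2, mul_zero]
        · rw [spanCycles_bot (by omega)] at h3
          rw [(Submodule.mem_bot _).1 h3, zero_mul, map_zero, mul_zero]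
      · rw [comp, if_neg hk] at h1
        rw [(Submodule.mem_bot _).1 h1, zero_mul, map_zero, mul_zero]
    · rw [W.tr_eq_zero (W.mul_mem (H914.span_gr (h.he k)) (H914.span_gr (h.he l))) (by omega),
        zero_mul]

end HFam

end Pool.Agent.TH132.P
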