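import Pool.Agent.TH132.P.Spaces
import Pool.Agent.TH132.A.Tate

/-!
# Generalised Tate classes on a product
-/

set_option autoImplicit false

open CategoryTheory AlgebraicGeometry
open scoped TensorProduct

universe u v

namespace Pool.Agent.TH132.P

open Pool.Agent.H914 Pool.Agent.H914.VarClass Pool.Agent.H914.VarClass.Obj
  Pool.Agent.H914.WeilCohomology Pool.Agent.H281R3.HT Pool.Agent.W552 Pool.Agent.W534
  Pool.Agent.H447 Pool.Agent.TH132.A Pool.Agent.W458.RK Pool.Agent.W458.MF

variable {k : Type u} [Field k] {𝒱 : VarClass k} {ops : CycleOps 𝒱}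
  {W : WeilCohomology.{u, v} ops} {X U Z : 𝒱.Obj} {p : ℕ} (Φ : FrobSystem W p)
  {σ : W.K →+* ℂ} {E : Subfield ℂ} {r : ℕ}

/-- All generalised Tate classes. -/
noncomputable def genT (Z : 𝒱.Obj) (j : ℕ) : Submodule W.K (W.H Z) :=
  genTate Φ Z (exists_stable Φ Z j).choose j

lemma genT_spec (Z : 𝒱.Obj) (j : ℕ) : ∃ t, 0 < t ∧ ∀ s, 0 < s → t ∣ s →
    genTate Φ Z s j = genT Φ Z j :=
  ⟨_, (exists_stable Φ Z j).choose_spec.1, fun _ hs hts =>
    eq_of_stable Φ (exists_stable Φ Z j).choose_spec.2 hs hts⟩

lemma mem_genT {j : ℕ} {z : W.H Z} : z ∈ genT Φ Z j ↔ ∃ s, 0 < s ∧ z ∈ genTate Φ Z s j :=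
  ⟨fun h => ⟨_, (exists_stable Φ Z j).choose_spec.1, h⟩, fun ⟨s, hs, h⟩ =>
    (exists_stable Φ Z j).choose_spec.2 s hs h⟩

lemma span_le_genT (Z : 𝒱.Obj) (j : ℕ) : spanCycles W Z (j : ℕ) ≤ genT Φ Z j := by
  obtain ⟨t, ht, h⟩ := exists_span_eig Φ Z j
  intro c hc
  exact (mem_genT Φ).2 ⟨t, ht, mem_genTate_of_eig Φ (H914.span_gr hc) (h c hc)⟩

lemma killed_span {K V : Type*} [Field K] [AddCommGroup V] [Module K V] {T : Module.End K V}
    {μ : K} {a : ℕ} {v : V} (hv : v ∈ Submodule.span K {v | Killed T μ a v}) :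
    Killed T μ a v := by
  induction hv using Submodule.span_induction with
  | mem v hv => exact hv
  | zero => exact killed_zero
  | add v w _ _ hv hw => exact hv.add hw
  | smul r v _ hv => exact hv.smul r

/-- The Frobenius endomorphisms of the product. -/
lemma exists_levels (X U : 𝒱.Obj) : ∃ A B B' : ℕ, 0 < A ∧ 0 < B ∧ 0 < B' ∧
    Φ.e (X.prod U) * A = Φ.e X * B ∧ Φ.e (X.prod U) * A = Φ.e U * B' ∧
    ∀ s, ∀ x : W.H X ⊗[W.K] W.H U, frob Φ (X.prod U) (A * s) (kunnethMap (W.map (fst X U))
      (W.map (snd X U)) x) = kunnethMap (W.map (fst X U)) (W.map (snd X U))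
        (TensorProduct.map (frob Φ X (B * s)) (frob Φ U (B' * s)) x) := by
  obtain ⟨a, b, ha, hb, hab, h1⟩ := frob_comm Φ (fst X U)
  obtain ⟨a', b', ha', hb', hab', h2⟩ := frob_comm Φ (snd X U)
  refine ⟨a * a', b * a', b' * a, Nat.mul_pos ha ha', Nat.mul_pos hb ha', Nat.mul_pos hb' ha,
    ?_, ?_, ?_⟩
  · calc Φ.e (X.prod U) * (a * a') = (a * Φ.e (X.prod U)) * a' := by ring
      _ = Φ.e X * (b * a') := by rw [hab]; ring
  · calc Φ.e (X.prod U) * (a * a') = (a' * Φ.e (X.prod U)) * a := by ring
      _ = Φ.e U * (b' * a) := by rw [hab']; ring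
  · intro s x
    induction x using TensorProduct.induction_on with
    | zero => rw [map_zero, map_zero, map_zero, map_zero]
    | add x y hx hy => rw [map_add, map_add, hx, hy, map_add, map_add]
    | tmul x y =>
      change W.map (W534.iter (Φ.Fr (X.prod U)) (a * a' * s)) (W.map (fst X U) x *
        W.map (snd X U) y) = W.map (fst X U) (W.map (W534.iter (Φ.Fr X) (b * a' * s)) x) *
          W.map (snd X U) (W.map (W534.iter (Φ.Fr U) (b' * a * s)) y)
      have h3 := h1 (a' * s) x
      have h4 := h2 (a * s) y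
      rw [show a * (a' * s) = a * a' * s by ring, show b * (a' * s) = b * a' * s by ring] at h3
      rw [show a' * (a * s) = a * a' * s by ring, show b' * (a * s) = b' * a * s by ring] at h4
      rw [map_mul, h3, h4]

variable {Φ}

lemma card_eq {Z' : 𝒱.Obj} {A B : ℕ} (h : Φ.e Z * A = Φ.e Z' * B) (s : ℕ) :
    card Φ Z (A * s) = card Φ Z' (B * s) := by
  rw [card, card, ← mul_assoc, h, mul_assoc]

/-- The action of the operator on the tensor products. -/
lemma pow_kunneth {A B B' : ℕ} (h : ∀ s, ∀ x : W.H X ⊗[W.K] W.H U, frob Φ (X.prod U) (A * s)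
      (kunnethMap (W.map (fst X U)) (W.map (snd X U)) x) =
        kunnethMap (W.map (fst X U)) (W.map (snd X U))
        (TensorProduct.map (frob Φ X (B * s)) (frob Φ U (B' * s)) x)) (s : ℕ) (μ : W.K) (n : ℕ)
    (x : W.H X ⊗[W.K] W.H U) :
    ((frob Φ (X.prod U) (A * s) - μ • (1 : Module.End W.K (W.H (X.prod U)))) ^ n)
      (kunnethMap (W.map (fst X U)) (W.map (snd X U)) x) =
        kunnethMap (W.map (fst X U)) (W.map (snd X U))
        (((TensorProduct.map (frob Φ X (B * s)) (frob Φ U (B' * s)) -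
          μ • (1 : Module.End W.K (W.H X ⊗[W.K] W.H U))) ^ n) x) := by
  induction n generalizing x with
  | zero => rfl
  | succ n ih =>
    rw [pow_succ, Module.End.mul_apply, pow_succ, Module.End.mul_apply, ← ih]
    congr 1
    rw [LinearMap.sub_apply, h, LinearMap.smul_apply, Module.End.one_apply, LinearMap.sub_apply,
      LinearMap.smul_apply, Module.End.one_apply, map_sub, map_smul]

variable {κ : Type} [Fintype κ] [DecidableEq κ] {e b : κ → W.H X} {d : κ → ℕ}

/-- **The generalised Tate classes on the product.** -/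
theorem HFam.genT_eq [IsAlgClosed W.K] (h : HFam W X e b d) (hT : TateTimes Φ σ E r X)
    (hU : EigenvaluesOfRank σ E r (W.map (Φ.Fr U)).toLinearMap) (c : ℕ) :
    genT Φ (X.prod U) c = combs e d (genT Φ U) c := by
  obtain ⟨A, B, B', hA, hB, hB', e1, e2, h1⟩ := exists_levels Φ X U
  ext z
  constructor
  · intro hz
    obtain ⟨s, hs, hz'⟩ := (mem_genT Φ).1 hz
    obtain ⟨⟨n, hn⟩, hzg⟩ := (mem_genTate Φ).1 (genTate_mono' Φ s A c hz')
    obtain ⟨x, rfl⟩ := (W.kunneth X U).2 z
    rw [pow_kunneth h1] at hn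
    have h2 : (((TensorProduct.map (frob Φ X (B * s)) (frob Φ U (B' * s)) -
        ((card Φ (X.prod U) (A * s) : W.K) ^ c) •
          (1 : Module.End W.K (W.H X ⊗[W.K] W.H U))) ^ n) x) = 0 := by
      apply (W.kunneth X U).1
      rw [hn, map_zero]
    have hG : EigenvaluesOfRank σ E r (frob Φ U (B' * s)) := by
      rw [frob_pow_eq]
      exact eigenvaluesOfRank_pow hU (Nat.mul_pos hB' hs)
    have h3 := (hT (B * s) (Nat.mul_pos hB hs) (W.H U) (frob Φ U (B' * s)) hG (c : ℤ) n x).1 (by
      refine ⟨1, one_pos, ?_⟩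
      rw [pow_one, pow_one, zpow_natCast]
      rw [card_eq e1 s, W534.card, Nat.cast_pow] at h2
      exact h2)
    have ec : ((p : W.K) ^ (Φ.e X * (B * s))) = (card Φ U (B' * s) : W.K) := by
      rw [W534.card, Nat.cast_pow, ← mul_assoc, ← e1, e2, mul_assoc]
    rw [ec] at h3
    rw [h.mem_combs_iff]
    have hspan : kunnethMap (W.map (fst X U)) (W.map (snd X U)) x ∈
        Submodule.span W.K {w | ∃ (i : ℕ) (x : W.H X) (y : W.H U), x ∈ algClasses W X i ∧
          Killed (frob Φ U (B' * s)) ((card Φ U (B' * s) : W.K) ^ ((c : ℤ) - i)) n y ∧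
            w = ext W x y} := by
      clear h2 hn hzg hz hz'
      induction h3 using Submodule.span_induction with
      | mem w hw =>
        obtain ⟨i, y, v, ⟨z', hz', rfl⟩, hv, rfl⟩ := hw
        exact Submodule.subset_span ⟨i, _, v, ⟨z', hz', rfl⟩, hv, rfl⟩
      | zero => rw [map_zero]; exact Submodule.zero_mem _
      | add x y _ _ hx hy => rw [map_add]; exact Submodule.add_mem _ hx hy
      | smul c x _ hx => rw [map_smul]; exact Submodule.smul_mem _ _ hx
    constructor
    · intro l
      have hdl := h.hd l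
      have h4 : cf W (b l) (kunnethMap (W.map (fst X U)) (W.map (snd X U)) x) ∈
          Submodule.span W.K {v | Killed (frob Φ U (B' * s))
            ((card Φ U (B' * s) : W.K) ^ ((c : ℤ) - d l)) n v} := by
        generalize kunnethMap (W.map (fst X U)) (W.map (snd X U)) x = w at hspan
        induction hspan using Submodule.span_induction with
        | mem w hw =>
          obtain ⟨i, y, v, hy, hv, rfl⟩ := hw
          rw [cf_ext (H914.span_gr (h.hb l))]
          by_cases hi : i = d l
          · subst hi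
            exact Submodule.smul_mem _ _ (Submodule.subset_span hv)
          · rw [W.tr_eq_zero (W.mul_mem (alg_gr hy) (H914.span_gr (h.hb l))) (by omega),
              zero_smul]
            exact Submodule.zero_mem _
        | zero => rw [map_zero]; exact Submodule.zero_mem _
        | add x y _ _ hx hy => rw [map_add]; exact Submodule.add_mem _ hx hy
        | smul c x _ hx => rw [map_smul]; exact Submodule.smul_mem _ _ hx
      by_cases hl : d l ≤ c
      · rw [comp, if_pos hl]
        obtain ⟨M, hM, h5⟩ := killed_span h4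
        refine (mem_genT Φ).2 ⟨B' * s * M, Nat.mul_pos (Nat.mul_pos hB' hs) hM, ?_⟩
        refine (mem_genTate Φ).2 ⟨⟨n, ?_⟩, ?_⟩
        · rw [frob_mul_eq, card_mul_eq, Nat.cast_pow, pow_right_comm]
          rwa [show ((c : ℤ) - d l) = ((c - d l : ℕ) : ℤ) by omega, zpow_natCast] at h5
        · exact (cf_mem (H914.span_gr (h.hb l)) hzg).1 _ (by omega)
      · rw [comp, if_neg hl]
        rw [(cf_mem (H914.span_gr (h.hb l)) hzg).2 (by omega)]
        exact Submodule.zero_mem _
    · refine h.rep ?_
      refine Submodule.span_mono ?_ hspan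
      rintro _ ⟨i, x, y, hx, -, rfl⟩
      exact ⟨x, y, AS.of hx, rfl⟩
  · intro hz
    obtain ⟨v, hv, rfl⟩ := mem_combs.1 hz
    refine Submodule.sum_mem _ fun l _ => ?_
    have h2 := hv l
    by_cases hl : d l ≤ c
    · rw [comp, if_pos hl] at h2
      obtain ⟨s, hs, h3⟩ := (mem_genT Φ).1 h2
      obtain ⟨t, ht, h4⟩ := exists_span_eig Φ X (d l)
      have h5 := h4 _ (h.he l)
      have h6 := span_eig_mul' Φ h5 (B * s)
      obtain ⟨⟨n, hn⟩, hvg⟩ := (mem_genTate Φ).1 (genTate_mono Φ s (B' * t) _ h3)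
      rw [show s * (B' * t) = B' * (s * t) by ring] at hn
      rw [show B * s * t = B * (s * t) by ring] at h6
      refine (mem_genT Φ).2 ⟨A * (s * t), Nat.mul_pos hA (Nat.mul_pos hs ht), ?_⟩
      refine (mem_genTate Φ).2 ⟨⟨n, ?_⟩, ?_⟩
      · have e3 : ext W (e l) (v l) = kunnethMap (W.map (fst X U)) (W.map (snd X U))
            (e l ⊗ₜ[W.K] v l) := rfl
        rw [e3, pow_kunneth h1]
        have e4 : ∀ (n : ℕ) (y : W.H U), ((TensorProduct.map (frob Φ X (B * (s * t)))
            (frob Φ U (B' * (s * t))) - ((card Φ (X.prod U) (A * (s * t)) : W.K) ^ c) •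
              (1 : Module.End W.K (W.H X ⊗[W.K] W.H U))) ^ n) (e l ⊗ₜ[W.K] y) =
            ((card Φ X (B * (s * t)) : W.K) ^ (d l)) ^ n • (e l ⊗ₜ[W.K]
              (((frob Φ U (B' * (s * t)) - ((card Φ U (B' * (s * t)) : W.K) ^ (c - d l)) •
                (1 : Module.End W.K (W.H U))) ^ n) y)) := by
          intro n
          induction n with
          | zero => intro y; rw [pow_zero, pow_zero, pow_zero, one_smul]; rfl
          | succ n ih =>
            intro y
            rw [pow_succ, Module.End.mul_apply]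
            have e5 : (TensorProduct.map (frob Φ X (B * (s * t)))
                (frob Φ U (B' * (s * t))) - ((card Φ (X.prod U) (A * (s * t)) : W.K) ^ c) •
                (1 : Module.End W.K (W.H X ⊗[W.K] W.H U))) (e l ⊗ₜ[W.K] y) =
                ((card Φ X (B * (s * t)) : W.K) ^ (d l)) • (e l ⊗ₜ[W.K]
                ((frob Φ U (B' * (s * t)) - ((card Φ U (B' * (s * t)) : W.K) ^ (c - d l)) •
                (1 : Module.End W.K (W.H U))) y)) := by
              rw [LinearMap.sub_apply, LinearMap.smul_apply, Module.End.one_apply,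
                TensorProduct.map_tmul, h6, LinearMap.sub_apply, LinearMap.smul_apply,
                Module.End.one_apply, TensorProduct.tmul_sub, smul_sub,
                TensorProduct.smul_tmul', TensorProduct.tmul_smul, smul_smul]
              congr 2
              rw [card_eq e1 (s * t), ← card_eq e2 (s * t), card_eq e1 (s * t), ← pow_add,
                show d l + (c - d l) = c by omega]
            rw [e5, map_smul, ih, smul_smul, pow_succ' (((card Φ X (B * (s * t)) : W.K)) ^ d l),
              pow_succ (frob Φ U (B' * (s * t)) - _), Module.End.mul_apply]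
        rw [e4, hn, TensorProduct.tmul_zero, smul_zero, map_zero]
      · have := W.mul_mem (W.map_mem (fst X U) (H914.span_gr (h.he l)))
          (W.map_mem (snd X U) hvg)
        rwa [show 2 * d l + 2 * (c - d l) = 2 * c by omega] at this
    · rw [comp, if_neg hl] at h2
      rw [(Submodule.mem_bot _).1 h2, ext_zero_right]
      exact Submodule.zero_mem _

end Pool.Agent.TH132.P
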